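import Pool.Agent.LandauF.HFin

/-!
# MP_313fff_an: the Liouville theorem for bounded ancient solutions of the Landau-Coulomb equation

The full Question 1 in our own words, with the collision operator defined as in the problem file and with an
arbitrary upper bound `K` in place of `1`.
-/

set_option autoImplicit false

open MeasureTheory

namespace Pool.Agent.Results.MP_313fff_an.Liouville

/-- Velocity space. -/
abbrev Vel : Type := EuclideanSpace ℝ (Fin 3)

/-- The partial derivative `∂_i g`. -/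
noncomputable def pd (i : Fin 3) (g : Vel → ℝ) (v : Vel) : ℝ :=
  fderiv ℝ g v (EuclideanSpace.single i 1)

/-- The coefficient `abar_ij[g](v) = (1/(8 π)) ∫ (|w|^2 δ_ij - w_i w_j) / |w|^3 g(v - w) dw`. -/
noncomputable def abar (g : Vel → ℝ) (i j : Fin 3) (v : Vel) : ℝ :=
  1 / (8 * Real.pi) *
    ∫ w : Vel, (‖w‖ ^ 2 * (if i = j then (1 : ℝ) else 0) - w i * w j) / ‖w‖ ^ 3 * g (v - w)

/-- The Landau-Coulomb collision operator `Q(g,g) = abar_ij[g] ∂_ij g + g^2`. -/
noncomputable def Q (g : Vel → ℝ) (v : Vel) : ℝ :=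
  (∑ i : Fin 3, ∑ j : Fin 3, abar g i j v * pd i (pd j g) v) + g v ^ 2

/-- A bounded ancient solution: smooth on `(-∞,0] × R^3`, nonnegative, bounded by some constant, with
`∫ f(t,v) <v>^(-1) dv` finite at every time `t ≤ 0`, and `∂_t f = Q(f,f)` for `t < 0`. -/
structure IsBoundedAncientSolution (f : ℝ → Vel → ℝ) : Prop where
  smooth : ContDiffOn ℝ (⊤ : ℕ∞) (fun p : ℝ × Vel => f p.1 p.2) (Set.Iic (0 : ℝ) ×ˢ Set.univ)
  nonneg : ∀ t ≤ (0 : ℝ), ∀ v, 0 ≤ f t v
  bounded : ∃ K : ℝ, ∀ t ≤ (0 : ℝ), ∀ v, f t v ≤ K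
  integrable : ∀ t ≤ (0 : ℝ), Integrable (fun v : Vel => f t v / Real.sqrt (1 + ‖v‖ ^ 2))
  equation : ∀ t < (0 : ℝ), ∀ v, HasDerivAt (fun s => f s v) (Q (f t) v) t

/-- The Maxwellian `ρ (2 π θ)^(-3/2) exp(-|v - u|^2 / (2 θ))`. -/
noncomputable def maxwellian (ρ θ : ℝ) (u v : Vel) : ℝ :=
  ρ * (2 * Real.pi * θ) ^ (-(3 / 2) : ℝ) * Real.exp (-‖v - u‖ ^ 2 / (2 * θ))

/-- The kernel of the frozen statement agrees with the coefficient `abar`. -/
theorem abar_eq (g : Vel → ℝ) (i j : Fin 3) (v : Vel) :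
    (∫ w : Vel, (1 / (8 * Real.pi)) *
        ((if i = j then (1 : ℝ) else 0) / ‖v - w‖ - (v - w) i * (v - w) j / ‖v - w‖ ^ 3) * g w) =
      abar g i j v := by
  rw [abar, ← integral_const_mul]
  rw [← integral_sub_left_eq_self (fun w : Vel => (1 / (8 * Real.pi)) *
        ((if i = j then (1 : ℝ) else 0) / ‖v - w‖ - (v - w) i * (v - w) j / ‖v - w‖ ^ 3) * g w)
      volume v]
  refine integral_congr_ae (Filter.Eventually.of_forall fun w => ?_)
  simp only [sub_sub_cancel]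
  rcases eq_or_ne w 0 with h | h
  · subst h
    simp
  · have hn : ‖w‖ ≠ 0 := norm_ne_zero_iff.mpr h
    have e : (‖w‖ ^ 2 * (if i = j then (1 : ℝ) else 0) - w i * w j) / ‖w‖ ^ 3 =
        (if i = j then (1 : ℝ) else 0) / ‖w‖ - w i * w j / ‖w‖ ^ 3 := by
      field_simp
    rw [e]
    ring

theorem pd_smul (c : ℝ) (i : Fin 3) (g : Vel → ℝ) (v : Vel) :
    pd i (fun w => c * g w) v = c * pd i g v := by
  have h : (fun w => c * g w) = c • g := by
    funext w
    simp
  have h2 : fderiv ℝ (c • g) v = c • fderiv ℝ g v := by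
    rw [fderiv_const_smul_field (𝕜 := ℝ)]
    rfl
  rw [pd, pd, h, h2]
  simp

theorem Q_smul (c : ℝ) (g : Vel → ℝ) (v : Vel) :
    Q (fun w => c * g w) v = c ^ 2 * Q g v := by
  have h1 : ∀ i j : Fin 3, pd i (pd j (fun w => c * g w)) v = c * pd i (pd j g) v := by
    intro i j
    have : pd j (fun w => c * g w) = fun w => c * pd j g w := by
      funext w
      exact pd_smul c j g w
    rw [this, pd_smul c]
  have h2 : ∀ i j : Fin 3, abar (fun w => c * g w) i j v = c * abar g i j v := by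
    intro i j
    have e : ∀ w : Vel, (‖w‖ ^ 2 * (if i = j then (1 : ℝ) else 0) - w i * w j) / ‖w‖ ^ 3 *
        (c * g (v - w)) = c * ((‖w‖ ^ 2 * (if i = j then (1 : ℝ) else 0) - w i * w j) / ‖w‖ ^ 3 *
        g (v - w)) := fun w => by ring
    simp only [abar, e]
    rw [integral_const_mul]
    ring
  simp only [Q, h1, h2, mul_add, Finset.mul_sum]
  congr 1
  · refine Finset.sum_congr rfl fun i _ => Finset.sum_congr rfl fun j _ => ?_
    ring
  · ring

/-- **Liouville theorem.** A bounded ancient solution of the space-homogeneous Landau-Coulomb equation is a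
stationary Maxwellian. -/
theorem result (f : ℝ → Vel → ℝ) (hf : IsBoundedAncientSolution f) :
    ∃ ρ θ : ℝ, ∃ u : Vel, 0 ≤ ρ ∧ 0 < θ ∧ ∀ t ≤ (0 : ℝ), ∀ v, f t v = maxwellian ρ θ u v := by
  obtain ⟨K, hK⟩ := hf.bounded
  set c : ℝ := (max K 1)⁻¹ with hcdef
  have hm : (0 : ℝ) < max K 1 := lt_of_lt_of_le one_pos (le_max_right _ _)
  have hc : 0 < c := inv_pos.mpr hm
  have hc0 : c ≠ 0 := hc.ne'
  set g : ℝ → Vel → ℝ := fun t v => c * f (c * t) v with hg
  have hneg : ∀ t ≤ (0 : ℝ), c * t ≤ 0 := fun t ht => mul_nonpos_of_nonneg_of_nonpos hc.le ht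
  have hs : ContDiffOn ℝ (⊤ : ℕ∞) (fun p : ℝ × Vel => g p.1 p.2) (Set.Iic (0 : ℝ) ×ˢ Set.univ) := by
    have h1 : ContDiffOn ℝ (⊤ : ℕ∞) (fun p : ℝ × Vel => ((c * p.1, p.2) : ℝ × Vel))
        (Set.Iic (0 : ℝ) ×ˢ Set.univ) :=
      ((contDiff_const.mul contDiff_fst).prodMk contDiff_snd).contDiffOn
    have h2 := hf.smooth.comp h1 (fun p hp => ⟨hneg p.1 hp.1, Set.mem_univ _⟩)
    exact contDiffOn_const.mul h2
  have h01 : ∀ t ≤ (0 : ℝ), ∀ v, 0 ≤ g t v ∧ g t v ≤ 1 := by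
    intro t ht v
    refine ⟨mul_nonneg hc.le (hf.nonneg _ (hneg t ht) v), ?_⟩
    have h1 : f (c * t) v ≤ max K 1 := (hK _ (hneg t ht) v).trans (le_max_left _ _)
    calc c * f (c * t) v ≤ c * max K 1 := mul_le_mul_of_nonneg_left h1 hc.le
      _ = 1 := by rw [hcdef]; exact inv_mul_cancel₀ hm.ne'
  have hi : ∀ t ≤ (0 : ℝ), Integrable (fun v : Vel => g t v / Real.sqrt (1 + ‖v‖ ^ 2)) := by
    intro t ht
    have h1 := (hf.integrable _ (hneg t ht)).const_mul c
    refine h1.congr (Filter.Eventually.of_forall fun v => ?_)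
    simp only [hg]
    ring
  have hpde : ∀ t < (0 : ℝ), ∀ v, deriv (fun s => g s v) t =
       (∑ i : Fin 3, ∑ j : Fin 3,
         (∫ w, (1 / (8 * Real.pi)) *
             ((if i = j then (1 : ℝ) else 0) / ‖v - w‖
               - (v - w) i * (v - w) j / ‖v - w‖ ^ 3) * g t w) *
         fderiv ℝ (fun x => fderiv ℝ (g t) x (EuclideanSpace.single j 1)) v
           (EuclideanSpace.single i 1))
       + g t v ^ 2 := by
    intro t ht v
    have hct : c * t < 0 := mul_neg_of_pos_of_neg hc ht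
    have h1 : HasDerivAt (fun s => g s v) (c * (Q (f (c * t)) v * c)) t := by
      have h2 : HasDerivAt (fun s : ℝ => c * s) c t := by
        simpa using (hasDerivAt_id t).const_mul c
      exact ((hf.equation _ hct v).comp t h2).const_mul c
    rw [h1.deriv]
    have h3 : c * (Q (f (c * t)) v * c) = Q (g t) v := by
      rw [hg, Q_smul c]
      ring
    rw [h3, Q]
    congr 1
    refine Finset.sum_congr rfl fun i _ => Finset.sum_congr rfl fun j _ => ?_
    rw [abar_eq]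
    rfl
  obtain ⟨ρ, T, u, hρ, hT, h⟩ :=
    Pool.Agent.LandauF.liouville g hs (Pool.Agent.Landau.to_solW g hs h01 hi hpde)
  have hpos : 0 < (2 * Real.pi * T) := by positivity
  refine ⟨c⁻¹ * ρ * (2 * Real.pi * T) ^ ((3 / 2) : ℝ), T, u, by positivity, hT, fun t ht v => ?_⟩
  have h1 := h (c⁻¹ * t) (mul_nonpos_of_nonneg_of_nonpos (inv_pos.mpr hc).le ht) v
  have h2 : g (c⁻¹ * t) v = c * f t v := by
    rw [hg]
    simp only
    rw [← mul_assoc, mul_inv_cancel₀ hc0, one_mul]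
  rw [h2] at h1
  have h3 : f t v = c⁻¹ * (ρ * Real.exp (-(‖v - u‖ ^ 2) / (2 * T))) := by
    rw [← h1, ← mul_assoc, inv_mul_cancel₀ hc0, one_mul]
  rw [h3, maxwellian, Real.rpow_neg hpos.le]
  have h4 : (2 * Real.pi * T) ^ ((3 / 2) : ℝ) ≠ 0 := (Real.rpow_pos_of_pos hpos _).ne'
  field_simp

end Pool.Agent.Results.MP_313fff_an.Liouville
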